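import Pool.Agent.Helper26.MCE.GoalsB

/-!
# Packet MCE-MK: marks
-/

namespace Pool.Agent.Helper60.MCE

open Finset Pool.Agent.Helper26.MCE

open Classical in
theorem goalMK (h1 : G_MB) (h2 : G_MF) (h3 : G_MT) : G_MK := by
  intro G _ _ s V _ D K f B ρ ρh t L2 c ty k lam hch hfo hρ hσ1 j hj d hd
  obtain ⟨σ, hσ⟩ : ∃ σ : ℝ, σ = ∑ l ∈ range s, ρ l := ⟨_, rfl⟩
  have hσ0 : 0 ≤ σ := by
    rw [hσ]
    exact sum_nonneg fun i _ => (hρ i).le
  have hσ1' : σ ≤ 1 := by rw [hσ]; exact hσ1
  have hMB := h1 G s V D K f B ρ ρh t L2 c ty (2 * k) lam hch hfo hρ j hj d hd (2 * k)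
  have hMF := h2 G s V D K f B ρ ρh t L2 c ty (2 * k) lam hch hfo hρ j hj d hd (2 * k)
  rw [← hσ] at hMB hMF ⊢
  -- one tuple
  have tuple : ∀ v : Fin (2 * k) → V, (∀ a, ty (v a) = j) →
      (∀ a a', a ≠ a' → c 1 (v a) ≠ c 1 (v a')) →
      (((Om s V K).filter fun ω => ∀ a, BadMark D c ω d (v a)).card : ℝ) ≤
        2 * 4 ^ k * σ ^ k * (Om s V K).card := by
    intro v hv hv'
    obtain ⟨F, hF⟩ : ∃ F : Finset (Fin (2 * k)) → Finset (Fin s × V → G), ∀ I, F I =
        (Om s V K).filter fun ω => ∀ a ∈ I, ∃ v',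
          (∃ a', a < a' ∧ c 1 v' = c 1 (v a')) ∧ Cov D c ω v' (pos c ω (v a) + d) :=
      ⟨_, fun _ => rfl⟩
    obtain ⟨M, hM⟩ : ∃ M : Finset (Fin (2 * k)) → Finset (Fin s × V → G), ∀ I, M I =
        (Om s V K).filter fun ω => ∀ a ∈ I, ∃ v', v' ≠ v a ∧
          (∀ a', a < a' → c 1 v' ≠ c 1 (v a')) ∧ Cov D c ω v' (pos c ω (v a) + d) :=
      ⟨_, fun _ => rfl⟩
    obtain ⟨P, hP⟩ : ∃ P : Finset (Finset (Fin (2 * k))), P =
      (univ : Finset (Finset (Fin (2 * k)))).filter fun I => k ≤ I.card := ⟨_, rfl⟩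
    have hPc : (P.card : ℝ) ≤ 4 ^ k := by
      have h4 : P.card ≤ (univ : Finset (Finset (Fin (2 * k)))).card := by
        rw [hP]
        exact card_filter_le _ _
      rw [card_univ, Fintype.card_finset, Fintype.card_fin] at h4
      have h5 : (P.card : ℝ) ≤ ((2 ^ (2 * k) : ℕ) : ℝ) := by exact_mod_cast h4
      refine h5.trans (le_of_eq ?_)
      rw [pow_mul]
      norm_num
    have hsub : ((Om s V K).filter fun ω => ∀ a, BadMark D c ω d (v a)) ⊆
        P.biUnion fun I => F I ∪ M I := by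
      intro ω hω
      rw [mem_filter] at hω
      obtain ⟨I, hI⟩ : ∃ I : Finset (Fin (2 * k)), I = univ.filter fun a => ∃ v',
          (∃ a', a < a' ∧ c 1 v' = c 1 (v a')) ∧ Cov D c ω v' (pos c ω (v a) + d) := ⟨_, rfl⟩
      rw [mem_biUnion]
      by_cases hk : k ≤ I.card
      · refine ⟨I, ?_, mem_union_left _ ?_⟩
        · rw [hP, mem_filter]
          exact ⟨mem_univ _, hk⟩
        · rw [hF, mem_filter]
          refine ⟨hω.1, fun a ha => ?_⟩
          rw [hI, mem_filter] at ha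
          exact ha.2
      · refine ⟨Iᶜ, ?_, mem_union_right _ ?_⟩
        · rw [hP, mem_filter]
          refine ⟨mem_univ _, ?_⟩
          rw [card_compl, Fintype.card_fin]
          omega
        · rw [hM, mem_filter]
          refine ⟨hω.1, fun a ha => ?_⟩
          rw [mem_compl, hI, mem_filter] at ha
          push Not at ha
          obtain ⟨v', hv1, hv2⟩ := hω.2 a
          refine ⟨v', hv1, fun a' haa' hc => ?_, hv2⟩
          exact ha (mem_univ _) v' ⟨a', haa', hc⟩ hv2
    have hcard : (((Om s V K).filter fun ω => ∀ a, BadMark D c ω d (v a)).card : ℝ) ≤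
        ∑ I ∈ P, (((F I).card : ℝ) + (M I).card) := by
      have h4 := (card_le_card hsub).trans card_biUnion_le
      have h5 : ∑ I ∈ P, (F I ∪ M I).card ≤ ∑ I ∈ P, ((F I).card + (M I).card) :=
        sum_le_sum fun I _ => card_union_le _ _
      have h6 := h4.trans h5
      exact_mod_cast h6
    refine hcard.trans ?_
    have hb : ∀ I ∈ P, ((F I).card : ℝ) + (M I).card ≤ 2 * (σ ^ k * (Om s V K).card) := by
      intro I hI
      rw [hP, mem_filter] at hI
      have h4 : σ ^ I.card ≤ σ ^ k := pow_le_pow_of_le_one hσ0 hσ1' hI.2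
      have h5 : ((F I).card : ℝ) ≤ σ ^ k * (Om s V K).card := by
        rw [hF]
        exact (hMF v hv hv' I).trans (mul_le_mul_of_nonneg_right h4 (Nat.cast_nonneg _))
      have h6 : ((M I).card : ℝ) ≤ σ ^ k * (Om s V K).card := by
        rw [hM]
        exact (hMB v hv hv' I).trans (mul_le_mul_of_nonneg_right h4 (Nat.cast_nonneg _))
      linarith
    refine (sum_le_sum hb).trans ?_
    rw [sum_const, nsmul_eq_mul]
    have h7 : 0 ≤ 2 * (σ ^ k * ((Om s V K).card : ℝ)) := by positivity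
    calc (P.card : ℝ) * (2 * (σ ^ k * ((Om s V K).card : ℝ))) ≤
          4 ^ k * (2 * (σ ^ k * ((Om s V K).card : ℝ))) := mul_le_mul_of_nonneg_right hPc h7
      _ = _ := by ring
  -- double counting
  obtain ⟨N, hN⟩ : ∃ N : ℕ, N = (univ.filter fun v => ty v = j).card := ⟨_, rfl⟩
  have hN1 : 1 ≤ N := by
    rw [hN]
    exact (hfo.enough j hj).2
  obtain ⟨E, hE⟩ : ∃ E : Finset (Fin s × V → G), E = (Om s V K).filter fun ω =>
    (univ.filter fun v => ty v = j).card <
      4 * (univ.filter fun v => ty v = j ∧ BadMark D c ω d v).card := ⟨_, rfl⟩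
  rw [← hE]
  obtain ⟨T, hT⟩ : ∃ T : Finset (Fin (2 * k) → V), T =
      (Fintype.piFinset fun _ : Fin (2 * k) => univ.filter fun v => ty v = j).filter fun v =>
        ∀ a a', a ≠ a' → c 1 (v a) ≠ c 1 (v a') := ⟨_, rfl⟩
  have hTc : (T.card : ℝ) ≤ (N : ℝ) ^ (2 * k) := by
    have h4 : T.card ≤ N ^ (2 * k) := by
      rw [hT]
      refine (card_filter_le _ _).trans (le_of_eq ?_)
      rw [Fintype.card_piFinset, prod_const, card_univ, Fintype.card_fin, hN]
    exact_mod_cast h4
  have hlow : ∀ ω ∈ E, ((N : ℝ) / 8) ^ (2 * k) ≤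
      ((T.filter fun v => ∀ a, BadMark D c ω d (v a)).card : ℝ) := by
    intro ω hω
    rw [hE, mem_filter] at hω
    have h4 := h3 V (univ.filter fun v => ty v = j ∧ BadMark D c ω d v) (c 1) N (2 * k)
      (fun v hv => by
        rw [mem_filter] at hv
        have h5 := hfo.many v
        rw [hv.2.1, ← hN] at h5
        exact h5) (by rw [hN]; exact hω.2)
    refine h4.trans ?_
    have h5 : ((Fintype.piFinset fun _ : Fin (2 * k) =>
        univ.filter fun v => ty v = j ∧ BadMark D c ω d v).filter fun v =>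
          ∀ a a', a ≠ a' → c 1 (v a) ≠ c 1 (v a')) ⊆
        T.filter fun v => ∀ a, BadMark D c ω d (v a) := by
      intro v hv
      rw [mem_filter, Fintype.mem_piFinset] at hv
      rw [mem_filter, hT, mem_filter, Fintype.mem_piFinset]
      refine ⟨⟨fun a => ?_, hv.2⟩, fun a => ?_⟩
      · have := hv.1 a
        rw [mem_filter] at this ⊢
        exact ⟨mem_univ _, this.2.1⟩
      · have := hv.1 a
        rw [mem_filter] at this
        exact this.2.2
    exact_mod_cast card_le_card h5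
  have hsum : (E.card : ℝ) * ((N : ℝ) / 8) ^ (2 * k) ≤
      (N : ℝ) ^ (2 * k) * (2 * 4 ^ k * σ ^ k * (Om s V K).card) := by
    have h4 : (E.card : ℝ) * ((N : ℝ) / 8) ^ (2 * k) ≤
        ∑ ω ∈ E, ((T.filter fun v => ∀ a, BadMark D c ω d (v a)).card : ℝ) := by
      rw [← nsmul_eq_mul]
      exact card_nsmul_le_sum _ _ _ hlow
    have h5 : ∑ ω ∈ E, ((T.filter fun v => ∀ a, BadMark D c ω d (v a)).card : ℝ) =
        ∑ v ∈ T, ((E.filter fun ω => ∀ a, BadMark D c ω d (v a)).card : ℝ) := by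
      have h6 : ∑ ω ∈ E, (T.filter fun v => ∀ a, BadMark D c ω d (v a)).card =
          ∑ v ∈ T, (E.filter fun ω => ∀ a, BadMark D c ω d (v a)).card := by
        simp only [card_filter]
        exact sum_comm
      exact_mod_cast h6
    rw [h5] at h4
    refine h4.trans ?_
    have h6 : ∀ v ∈ T, ((E.filter fun ω => ∀ a, BadMark D c ω d (v a)).card : ℝ) ≤
        2 * 4 ^ k * σ ^ k * (Om s V K).card := by
      intro v hv
      rw [hT, mem_filter, Fintype.mem_piFinset] at hv
      refine le_trans ?_ (tuple v (fun a => ?_) hv.2)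
      · have h7 : (E.filter fun ω => ∀ a, BadMark D c ω d (v a)) ⊆
            (Om s V K).filter fun ω => ∀ a, BadMark D c ω d (v a) := by
          refine filter_subset_filter _ ?_
          rw [hE]
          exact filter_subset _ _
        exact_mod_cast card_le_card h7
      · have := hv.1 a
        rw [mem_filter] at this
        exact this.2
    refine (sum_le_sum h6).trans ?_
    rw [sum_const, nsmul_eq_mul]
    exact mul_le_mul_of_nonneg_right hTc (by positivity)
  have hNpos : (0 : ℝ) < (N : ℝ) ^ (2 * k) := by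
    have : (0 : ℝ) < N := by exact_mod_cast hN1
    positivity
  have h8 : ((N : ℝ) / 8) ^ (2 * k) = (N : ℝ) ^ (2 * k) / 64 ^ k := by
    rw [div_pow, pow_mul 8 2 k]
    norm_num
  rw [h8, mul_div_assoc', div_le_iff₀ (by positivity)] at hsum
  have h9 : (N : ℝ) ^ (2 * k) * (E.card : ℝ) ≤ (N : ℝ) ^ (2 * k) *
      (2 * (256 * σ) ^ k * (Om s V K).card) := by
    have h10 : (256 * σ) ^ k = 64 ^ k * 4 ^ k * σ ^ k := by
      rw [mul_pow, ← mul_pow 64 4]
      norm_num
    rw [h10]
    calc (N : ℝ) ^ (2 * k) * (E.card : ℝ) = (E.card : ℝ) * (N : ℝ) ^ (2 * k) := mul_comm _ _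
      _ ≤ _ := hsum
      _ = _ := by ring
  exact le_of_mul_le_mul_left h9 hNpos

end Pool.Agent.Helper60.MCE
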